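import Pool.Agent.X194.DC.Sys

/-!
# MP_5bdc9f_an: a map of a dendrite with an uncountable DC3 set and without Li-Yorke pairs
-/

namespace Pool.Agent.Results.MP_5bdc9f_an.DC3WithoutLiYorke

open Set Filter Topology Pool.Agent.X194.DC

/-- compact connected locally connected metric spaces without a subset homeomorphic to a circle -/
structure IsDendrite (X : Type) [MetricSpace X] : Prop where
  compact : CompactSpace X
  connected : ConnectedSpace X
  locallyConnected : LocallyConnectedSpace X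
  noCircle : ∀ S : Set X, IsEmpty (S ≃ₜ Circle)

/-- Li-Yorke pairs -/
def LiYorkePair {X : Type} [MetricSpace X] (f : X → X) (x y : X) : Prop :=
  x ≠ y ∧ liminf (fun k : ℕ => dist (f^[k] x) (f^[k] y)) atTop = 0 ∧
    0 < limsup (fun k : ℕ => dist (f^[k] x) (f^[k] y)) atTop

/-- `(1/n) #{0 ≤ k ≤ n : d (f^k x, f^k y) < δ}` -/
noncomputable def freq {X : Type} [MetricSpace X] (f : X → X) (x y : X) (δ : ℝ) (n : ℕ) : ℝ :=
  ({k : ℕ | k ≤ n ∧ dist (f^[k] x) (f^[k] y) < δ}.ncard : ℝ) / n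

/-- DC3 pairs -/
def DC3Pair {X : Type} [MetricSpace X] (f : X → X) (x y : X) : Prop :=
  x ≠ y ∧ ∃ a b : ℝ, 0 ≤ a ∧ a < b ∧ b ≤ Metric.diam (univ : Set X) ∧
    ∀ δ ∈ Ioo a b, liminf (freq f x y δ) atTop < limsup (freq f x y δ) atTop

/-! ### the family of points -/

/-- the partial sums -/
def v (α : ℕ → Bool) (n : ℕ) : ZMod 2 :=
  if n % 2 = 1 ∧ α (Nat.unpair (n / 2)).1 = true then 1 else 0

lemma v_even (α : ℕ → Bool) (j : ℕ) : v α (2 * j) = 0 := by
  unfold v; rw [if_neg]; rintro ⟨h, -⟩; omega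

lemma v_odd (α : ℕ → Bool) (l j : ℕ) : v α (2 * Nat.pair l j + 1) = if α l = true then 1 else 0 := by
  unfold v
  rw [show (2 * Nat.pair l j + 1) % 2 = 1 by omega, show (2 * Nat.pair l j + 1) / 2 = Nat.pair l j by
    omega, Nat.unpair_pair]
  simp

/-- the parameter -/
def u (α : ℕ → Bool) : ℕ → ZMod 2
  | 0 => 0
  | i + 1 => v α (i + 1) - v α i

lemma sum_u (α : ℕ → Bool) (i : ℕ) : ∑ j ∈ Finset.range i, u α (j + 1) = v α i := by
  show ∑ j ∈ Finset.range i, (v α (j + 1) - v α j) = _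
  rw [Finset.sum_range_sub]
  have := v_even α 0
  rw [mul_zero] at this
  rw [this, sub_zero]

/-- the point of the system -/
def ym (α : ℕ → Bool) : MM := ⟨pt (u α), pt_mem rfl⟩

/-- the point of the tree -/
noncomputable def xt (α : ℕ → Bool) : DTree MM := mk ⟨ym α, 1, zero_le_one, le_rfl⟩

/-- the map of the tree -/
noncomputable def F : DTree MM → DTree MM := fT T T_lip

lemma dist_iter (α β : ℕ → Bool) (k : ℕ) :
    dist (F^[k] (xt α)) (F^[k] (xt β)) = 2 * dist (T^[k] (ym α)) (T^[k] (ym β)) := by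
  unfold F xt
  rw [fT_iterate, fT_iterate, SeparationQuotient.dist_mk, dist_top (FP_t_one rfl k)
    (FP_t_one rfl k), FP_m, FP_m]

lemma ym_iter (α : ℕ → Bool) (k i : ℕ) :
    (T^[k] (ym α)).1 i = (u α i, 1 + (k : ZMod (N i)), S (u α) (i + k)) := T_iter (ym α) k i

lemma dist_of_ne {α β : ℕ → Bool} {k : ℕ} (h : S (u α) k ≠ S (u β) k) :
    2 ≤ dist (F^[k] (xt α)) (F^[k] (xt β)) := by
  rw [dist_iter]
  have h1 : (T^[k] (ym α)).1 0 ≠ (T^[k] (ym β)).1 0 := by
    rw [ym_iter, ym_iter, zero_add]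
    intro h2
    exact h (congrArg (fun e => e.2.2) h2)
  have := le_dist_of_ne h1
  rw [pow_zero] at this
  linarith

lemma dist_of_eq {α β : ℕ → Bool} {k : ℕ} (h : S (u α) k = S (u β) k) :
    dist (F^[k] (xt α)) (F^[k] (xt β)) ≤ 1 := by
  rw [dist_iter]
  have h1 : ∀ i < 1, (T^[k] (ym α)).1 i = (T^[k] (ym β)).1 i := by
    intro i hi
    have : i = 0 := by omega
    subst this
    rw [ym_iter, ym_iter, zero_add, h]
    rfl
  have := dist_le_of_eq h1
  norm_num at this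
  linarith

lemma set_eq {α β : ℕ → Bool} {δ : ℝ} (hδ : δ ∈ Ioo (1 : ℝ) 2) (n : ℕ) :
    {k : ℕ | k ≤ n ∧ dist (F^[k] (xt α)) (F^[k] (xt β)) < δ} =
      {k : ℕ | k ≤ n ∧ S (fun j => u α j - u β j) k = 0} := by
  ext k
  show (k ≤ n ∧ dist (F^[k] (xt α)) (F^[k] (xt β)) < δ) ↔
    (k ≤ n ∧ S (fun j => u α j - u β j) k = 0)
  rw [S_sub, sub_eq_zero]
  refine and_congr_right fun _ => ⟨fun h => ?_, fun h => ?_⟩
  · by_contra hne
    have := dist_of_ne hne
    linarith [hδ.2]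
  · have := dist_of_eq h
    linarith [hδ.1]

lemma sum_w (α β : ℕ → Bool) (i : ℕ) :
    ∑ j ∈ Finset.range i, (fun j => u α j - u β j) (j + 1) = v α i - v β i := by
  show ∑ j ∈ Finset.range i, (u α (j + 1) - u β (j + 1)) = _
  rw [Finset.sum_sub_distrib, sum_u, sum_u]

lemma N_ge {i : ℕ} (hi : 1 ≤ i) : 16 ≤ N i := by
  have h1 : N 1 ≤ N i := N_mono hi
  have h2 : N 1 = 16 := rfl
  omega

lemma card_bad' (w : ℕ → ZMod 2) (i : ℕ) : ((bad w i).card : ℝ) ≤ N i / 8 := by
  refine (card_bad w i).trans ?_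
  have h1 : (0 : ℝ) ≤ 1 / 2 ^ (i + 3) := by positivity
  have h2 : (0 : ℝ) ≤ N i := Nat.cast_nonneg _
  nlinarith

lemma freq_small {α β : ℕ → Bool} {δ : ℝ} (hδ : δ ∈ Ioo (1 : ℝ) 2) {i : ℕ} (hi : 1 ≤ i)
    (hV : v α i - v β i ≠ 0) : freq F (xt α) (xt β) δ (N i) ≤ 1 / 4 := by
  unfold freq
  rw [set_eq hδ]
  set w : ℕ → ZMod 2 := fun j => u α j - u β j with hw
  have hNi : (16 : ℝ) ≤ N i := by exact_mod_cast N_ge hi
  have hsub : {k : ℕ | k ≤ N i ∧ S w k = 0} ⊆ ((bad w i ∪ {N i} : Finset ℕ) : Set ℕ) := by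
    rintro k ⟨hk1, hk2⟩
    rw [Finset.mem_coe, Finset.mem_union, Finset.mem_singleton]
    rcases hk1.lt_or_eq with h | h
    · left
      unfold bad
      rw [Finset.mem_filter, Finset.mem_range, hk2, sum_w]
      exact ⟨h, hV.symm⟩
    · exact Or.inr h
  have h1 := Set.ncard_le_ncard hsub (Finset.finite_toSet _)
  rw [Set.ncard_coe_finset] at h1
  have h2 : (bad w i ∪ {N i}).card ≤ (bad w i).card + 1 := by
    refine (Finset.card_union_le _ _).trans ?_
    rw [Finset.card_singleton]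
  have h3 : ({k : ℕ | k ≤ N i ∧ S w k = 0}.ncard : ℝ) ≤ (bad w i).card + 1 := by
    exact_mod_cast h1.trans h2
  rw [div_le_iff₀ (by linarith)]
  have := card_bad' w i
  linarith

lemma freq_large {α β : ℕ → Bool} {δ : ℝ} (hδ : δ ∈ Ioo (1 : ℝ) 2) {i : ℕ} (hi : 1 ≤ i)
    (hV : v α i - v β i = 0) : 3 / 4 ≤ freq F (xt α) (xt β) δ (N i) := by
  unfold freq
  rw [set_eq hδ]
  set w : ℕ → ZMod 2 := fun j => u α j - u β j with hw
  have hNi : (16 : ℝ) ≤ N i := by exact_mod_cast N_ge hi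
  have hsub : ((Finset.range (N i) \ bad w i : Finset ℕ) : Set ℕ) ⊆
      {k : ℕ | k ≤ N i ∧ S w k = 0} := by
    intro k hk
    rw [Finset.mem_coe, Finset.mem_sdiff, Finset.mem_range] at hk
    obtain ⟨hk1, hk2⟩ := hk
    refine ⟨hk1.le, ?_⟩
    by_contra hne
    apply hk2
    unfold bad
    rw [Finset.mem_filter, Finset.mem_range, sum_w, hV]
    exact ⟨hk1, hne⟩
  have hfin : {k : ℕ | k ≤ N i ∧ S w k = 0}.Finite :=
    (Set.finite_Iic (N i)).subset fun k hk => hk.1
  have h1 := Set.ncard_le_ncard hsub hfin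
  rw [Set.ncard_coe_finset] at h1
  have h2 : N i ≤ (Finset.range (N i) \ bad w i).card + (bad w i).card := by
    have := Finset.card_le_card_sdiff_add_card (s := Finset.range (N i)) (t := bad w i)
    rwa [Finset.card_range] at this
  have h3 : (N i : ℝ) ≤ ({k : ℕ | k ≤ N i ∧ S w k = 0}.ncard : ℝ) + (bad w i).card := by
    exact_mod_cast h2.trans (Nat.add_le_add_right h1 _)
  rw [le_div_iff₀ (by linarith)]
  have := card_bad' w i
  linarith

lemma freq_nonneg {α β : ℕ → Bool} (δ : ℝ) (n : ℕ) : 0 ≤ freq F (xt α) (xt β) δ n := by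
  unfold freq; positivity

lemma freq_le_two {α β : ℕ → Bool} (δ : ℝ) (n : ℕ) : freq F (xt α) (xt β) δ n ≤ 2 := by
  unfold freq
  rcases Nat.eq_zero_or_pos n with h | h
  · rw [h]; simp
  · have hn : (1 : ℝ) ≤ n := by exact_mod_cast h
    rw [div_le_iff₀ (by linarith)]
    have h1 : {k : ℕ | k ≤ n ∧ dist (F^[k] (xt α)) (F^[k] (xt β)) < δ} ⊆
        ((Finset.range (n + 1) : Finset ℕ) : Set ℕ) := by
      rintro k ⟨hk, -⟩
      rw [Finset.mem_coe, Finset.mem_range]; omega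
    have h2 := Set.ncard_le_ncard h1 (Finset.finite_toSet _)
    rw [Set.ncard_coe_finset, Finset.card_range] at h2
    have h3 : ({k : ℕ | k ≤ n ∧ dist (F^[k] (xt α)) (F^[k] (xt β)) < δ}.ncard : ℝ) ≤ n + 1 := by
      exact_mod_cast h2
    linarith

lemma two_le_diam : 2 ≤ Metric.diam (univ : Set (DTree MM)) := by
  have hmem : ∀ c : ZMod 2, (fun i => ((0 : ZMod 2), (1 : ZMod (N i)), c) : ∀ i, E i) ∈ Mset := by
    intro c k i _ _
    show c = c + ∑ j ∈ Finset.range i, (0 : ZMod 2) + (if _ then (0 : ZMod 2) else 0)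
    simp
  let a : MM := ⟨_, hmem 0⟩
  let b : MM := ⟨_, hmem 1⟩
  let p : Pt MM := ⟨a, 1, zero_le_one, le_rfl⟩
  let q : Pt MM := ⟨b, 1, zero_le_one, le_rfl⟩
  have hne : a.1 0 ≠ b.1 0 := by
    intro h
    have h2 : (0 : ZMod 2) = 1 := congrArg (fun e => e.2.2) h
    exact absurd h2 (by decide)
  have h1 := le_dist_of_ne hne
  have h2 : dist (mk p) (mk q) = 2 * dist a b := by
    rw [SeparationQuotient.dist_mk, dist_top rfl rfl]
  have h3 := Metric.dist_le_diam_of_mem (s := (univ : Set (DTree MM)))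
    isCompact_univ.isBounded (mem_univ (mk p)) (mem_univ (mk q))
  rw [h2] at h3
  rw [pow_zero] at h1
  linarith

lemma exists_ne_index {α β : ℕ → Bool} (h : α ≠ β) (j : ℕ) :
    ∃ i, j ≤ i ∧ 1 ≤ i ∧ v α i - v β i ≠ 0 := by
  obtain ⟨l, hl⟩ := Function.ne_iff.1 h
  refine ⟨2 * Nat.pair l j + 1, ?_, by omega, ?_⟩
  · have := Nat.right_le_pair l j; omega
  · rw [v_odd, v_odd]
    cases h1 : α l <;> cases h2 : β l <;> simp_all

lemma xt_injective : Function.Injective xt := by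
  intro α β h
  unfold xt at h
  rw [mk_eq_mk, dist_top rfl rfl] at h
  have h1 : ym α = ym β := dist_eq_zero.1 (by linarith)
  by_contra hne
  obtain ⟨i, -, -, hi⟩ := exists_ne_index hne 0
  apply hi
  rw [← sum_u, ← sum_u, sub_eq_zero]
  refine Finset.sum_congr rfl fun j _ => ?_
  have h2 : (ym α).1 (j + 1) = (ym β).1 (j + 1) := by rw [h1]
  exact congrArg (fun e => e.1) h2

lemma dc3 {α β : ℕ → Bool} (h : α ≠ β) : DC3Pair F (xt α) (xt β) := by
  refine ⟨xt_injective.ne h, 1, 2, by norm_num, by norm_num, two_le_diam, fun δ hδ => ?_⟩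
  have hb1 : IsBoundedUnder (· ≥ ·) atTop (freq F (xt α) (xt β) δ) :=
    isBoundedUnder_of ⟨0, fun n => freq_nonneg δ n⟩
  have hb2 : IsBoundedUnder (· ≤ ·) atTop (freq F (xt α) (xt β) δ) :=
    isBoundedUnder_of ⟨2, fun n => freq_le_two δ n⟩
  have h1 : liminf (freq F (xt α) (xt β) δ) atTop ≤ 1 / 4 := by
    refine liminf_le_of_frequently_le ?_ hb1
    rw [frequently_atTop]
    intro n
    obtain ⟨i, hi1, hi2, hi3⟩ := exists_ne_index h n
    exact ⟨N i, by have := lt_N i; omega, freq_small hδ hi2 hi3⟩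
  have h2 : 3 / 4 ≤ limsup (freq F (xt α) (xt β) δ) atTop := by
    refine le_limsup_of_frequently_le ?_ hb2
    rw [frequently_atTop]
    intro n
    refine ⟨N (2 * (n + 1)), by have := lt_N (2 * (n + 1)); omega, freq_large hδ (by omega) ?_⟩
    rw [v_even, v_even, sub_zero]
  linarith

lemma no_LY (x y : DTree MM) : ¬ LiYorkePair F x y := by
  rintro ⟨-, h1, h2⟩
  have hbd : ∀ k, dist (F^[k] x) (F^[k] y) ≤ Metric.diam (univ : Set (DTree MM)) := fun k =>
    Metric.dist_le_diam_of_mem isCompact_univ.isBounded (mem_univ _) (mem_univ _)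
  rcases dist_dichotomy T_lip T_dichotomy x y with ⟨δ, hδ, h⟩ | h
  · have hb : IsBoundedUnder (· ≤ ·) atTop (fun k : ℕ => dist (F^[k] x) (F^[k] y)) :=
      isBoundedUnder_of ⟨_, hbd⟩
    have h3 : δ ≤ liminf (fun k : ℕ => dist (F^[k] x) (F^[k] y)) atTop :=
      le_liminf_of_le hb.isCoboundedUnder_ge h
    linarith
  · have h3 : Tendsto (fun k : ℕ => dist (F^[k] x) (F^[k] y)) atTop (𝓝 0) :=
      tendsto_const_nhds.congr' (h.mono fun k hk => hk.symm)
    rw [h3.limsup_eq] at h2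
    exact lt_irrefl _ h2

instance : Nonempty MM := ⟨ym fun _ => false⟩

lemma isDendrite : IsDendrite (DTree MM) where
  compact := inferInstance
  connected := inferInstance
  locallyConnected := inferInstance
  noCircle S := ⟨fun e => no_circle (fun z => ((e.symm z : S) : DTree MM))
    (continuous_subtype_val.comp e.symm.continuous)
    (Subtype.val_injective.comp e.symm.injective)⟩

/-- There are a dendrite `X` and a continuous map `f : X → X` with an uncountable DC3 set and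
without Li-Yorke pairs. -/
theorem result : ∃ (X : Type) (_ : MetricSpace X), IsDendrite X ∧ ∃ f : X → X, Continuous f ∧
    (∃ D : Set X, ¬ D.Countable ∧ ∀ x ∈ D, ∀ y ∈ D, x ≠ y → DC3Pair f x y) ∧
    ∀ x y, ¬ LiYorkePair f x y := by
  refine ⟨DTree MM, inferInstance, isDendrite, F, continuous_fT _, ⟨range xt, ?_, ?_⟩, no_LY⟩
  · intro hc
    have h1 : (univ : Set (ℕ → Bool)).Countable := by
      have := hc.preimage_of_injOn (f := xt) xt_injective.injOn
      rwa [preimage_range] at this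
    rw [countable_univ_iff] at h1
    obtain ⟨g, hg⟩ := h1
    classical
    refine Function.cantor_injective (fun s : Set ℕ => g fun n => decide (n ∈ s)) ?_
    intro s t hst
    have h2 := hg hst
    ext n
    have h3 := congrFun h2 n
    simpa using h3
  · rintro _ ⟨α, rfl⟩ _ ⟨β, rfl⟩ hne
    exact dc3 fun h => hne (by rw [h])

end Pool.Agent.Results.MP_5bdc9f_an.DC3WithoutLiYorke
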